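import Pool.Agent.H91.RF.TargetsF

/-!
# MP_609556_an, module ITER: the iteration lemma
-/

open MeasureTheory Set Filter Topology Metric
open Pool.Agent.H29.TF (hk P)
open Pool.Agent.H91.RD Pool.Agent.H91.RF

namespace Pool.Agent.H34.RF.ITER

/-- one downward step of the recursion -/
theorem step {N : ℕ} (G : E N → E N → ℝ) (h h' D D' Sb Sb' Φ Φ' W W' V' : E N → ℝ)
    (Bx : Set (E N)) (g κ ς B1 B2 M nn m' : ℝ) (hBx : MeasurableSet Bx)
    (hG : Measurable (fun p : E N × E N => G p.1 p.2)) (hG0 : ∀ x y, 0 ≤ G x y)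
    (hGi : ∀ x, Integrable (G x))
    (hh' : Measurable h') (hV' : Measurable V')
    (hh'0 : ∀ x, 0 ≤ h' x) (hh'M : ∀ x, h' x ≤ M)
    (hD0 : ∀ x, 0 ≤ D x) (hD'0 : ∀ x, 0 ≤ D' x) (hSb0 : ∀ x, 0 ≤ Sb x)
    (hW0 : ∀ x, 0 ≤ W x) (hW'0 : ∀ x, 0 ≤ W' x)
    (hg : 0 ≤ g) (hκ : 0 ≤ κ) (hς : 0 ≤ ς) (hB1 : 0 ≤ B1) (hB2 : 0 ≤ B2)
    (hm' : 0 ≤ m') (hmn : m' ≤ nn)
    (hiD : ∀ x ∈ Bx, Integrable (fun y => G x y * D' y))
    (hiS : ∀ x ∈ Bx, Integrable (fun y => G x y * Sb' y))
    (hiW : ∀ x ∈ Bx, Integrable (fun y => G x y * W' y))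
    (hiF : ∀ x ∈ Bx, Integrable (fun y => G x y * (h' y * Φ' y)))
    (hpos : ∀ x ∈ Bx, 0 < h x)
    (hsub : ∀ x ∈ Bx, h x ≤ ∫ y, G x y * h' y)
    (hDs : ∀ x ∈ Bx, ∫ y, G x y * D' y ≤ D x + ς * h x)
    (hSs : ∀ x ∈ Bx, ∫ y, G x y * Sb' y ≤ Sb x)
    (hWs : ∀ x ∈ Bx, ∫ y, G x y * W' y ≤ W x)
    (hgain : ∀ x ∈ Bx, Φ x + g - κ * (D x / h x) ≤
      (∫ y, G x y * (h' y * Φ' y)) / ∫ y, G x y * h' y)
    (hout : ∀ x ∉ Bx, h' x * (Φ' x + nn * g) ≤ Sb' x)
    (hV0 : ∀ x ∉ Bx, V' x = 0)
    (hup : ∀ x ∈ Bx, h' x * V' x ≤ B1 * h' x + B2 * W' x)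
    (hlo : ∀ x ∈ Bx, h' x * Φ' x + (m' * g - κ * ς * m' ^ 2) * h' x - κ * m' * D' x - Sb' x ≤
      h' x * V' x) :
    ∃ V : E N → ℝ, Measurable V ∧ (∀ x ∉ Bx, V x = 0) ∧
      (∀ x ∈ Bx, h x * V x ≤ B1 * h x + B2 * W x) ∧
      (∀ x ∈ Bx, h x * Φ x + ((m' + 1) * g - κ * ς * (m' + 1) ^ 2) * h x - κ * (m' + 1) * D x -
        Sb x ≤ h x * V x) := by
  have hM0 : 0 ≤ M := (hh'0 0).trans (hh'M 0)
  have hiH : ∀ x, Integrable (fun y => G x y * h' y) := by
    intro x
    refine (hGi x).mul_bdd (c := M) hh'.aestronglyMeasurable ?_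
    exact Eventually.of_forall fun y => by
      rw [Real.norm_eq_abs, abs_of_nonneg (hh'0 y)]; exact hh'M y
  -- bounds everywhere
  have hupE : ∀ y, h' y * V' y ≤ B1 * h' y + B2 * W' y := by
    intro y
    by_cases hy : y ∈ Bx
    · exact hup y hy
    · rw [hV0 y hy, mul_zero]
      have := mul_nonneg hB1 (hh'0 y)
      have := mul_nonneg hB2 (hW'0 y)
      linarith
  have hloE : ∀ y, h' y * Φ' y + (m' * g - κ * ς * m' ^ 2) * h' y - κ * m' * D' y - Sb' y ≤
      h' y * V' y := by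
    intro y
    by_cases hy : y ∈ Bx
    · exact hlo y hy
    · rw [hV0 y hy, mul_zero]
      have h1 := hout y hy
      have h2 : 0 ≤ (nn - m') * g * h' y :=
        mul_nonneg (mul_nonneg (by linarith) hg) (hh'0 y)
      have h3 : 0 ≤ κ * ς * m' ^ 2 * h' y :=
        mul_nonneg (mul_nonneg (mul_nonneg hκ hς) (sq_nonneg _)) (hh'0 y)
      have h4 : 0 ≤ κ * m' * D' y := mul_nonneg (mul_nonneg hκ hm') (hD'0 y)
      nlinarith
  have hmeasV : ∀ x, AEStronglyMeasurable (fun y => G x y * (h' y * V' y)) volume := by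
    intro x
    exact ((hG.comp (measurable_const.prodMk measurable_id)).mul
      (hh'.mul hV')).aestronglyMeasurable
  have hiUp : ∀ x ∈ Bx, Integrable (fun y => G x y * (B1 * h' y + B2 * W' y)) := by
    intro x hx
    have := ((hiH x).const_mul B1).add ((hiW x hx).const_mul B2)
    refine this.congr (Eventually.of_forall fun y => ?_)
    simp only [Pi.add_apply]; ring
  have hiLo : ∀ x ∈ Bx, Integrable (fun y => G x y *
      (h' y * Φ' y + (m' * g - κ * ς * m' ^ 2) * h' y - κ * m' * D' y - Sb' y)) := by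
    intro x hx
    have := ((((hiF x hx).add ((hiH x).const_mul (m' * g - κ * ς * m' ^ 2))).sub
      ((hiD x hx).const_mul (κ * m'))).sub (hiS x hx))
    refine this.congr (Eventually.of_forall fun y => ?_)
    simp only [Pi.add_apply, Pi.sub_apply]; ring
  have hiV : ∀ x ∈ Bx, Integrable (fun y => G x y * (h' y * V' y)) := by
    intro x hx
    have h1 := (hiUp x hx).norm.add (hiLo x hx).norm
    refine h1.mono' (hmeasV x) (Eventually.of_forall fun y => ?_)
    have hu : G x y * (h' y * V' y) ≤ G x y * (B1 * h' y + B2 * W' y) :=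
      mul_le_mul_of_nonneg_left (hupE y) (hG0 x y)
    have hl : G x y * (h' y * Φ' y + (m' * g - κ * ς * m' ^ 2) * h' y - κ * m' * D' y - Sb' y) ≤
        G x y * (h' y * V' y) := mul_le_mul_of_nonneg_left (hloE y) (hG0 x y)
    simp only [Pi.add_apply, Real.norm_eq_abs]
    rw [abs_le]
    have e1 := neg_abs_le (G x y * (B1 * h' y + B2 * W' y))
    have e2 := le_abs_self (G x y * (B1 * h' y + B2 * W' y))
    have e3 := neg_abs_le (G x y *
      (h' y * Φ' y + (m' * g - κ * ς * m' ^ 2) * h' y - κ * m' * D' y - Sb' y))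
    have e4 := le_abs_self (G x y *
      (h' y * Φ' y + (m' * g - κ * ς * m' ^ 2) * h' y - κ * m' * D' y - Sb' y))
    have e5 := abs_nonneg (G x y * (B1 * h' y + B2 * W' y))
    have e6 := abs_nonneg (G x y *
      (h' y * Φ' y + (m' * g - κ * ς * m' ^ 2) * h' y - κ * m' * D' y - Sb' y))
    constructor <;> linarith
  refine ⟨Bx.indicator (fun x => (∫ y, G x y * (h' y * V' y)) / ∫ y, G x y * h' y), ?_, ?_, ?_, ?_⟩
  · refine Measurable.indicator ?_ hBx
    have m1 : Measurable (fun x => ∫ y, G x y * (h' y * V' y)) := by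
      have : StronglyMeasurable (fun p : E N × E N => G p.1 p.2 * (h' p.2 * V' p.2)) :=
        (hG.mul ((hh'.comp measurable_snd).mul (hV'.comp measurable_snd))).stronglyMeasurable
      exact (StronglyMeasurable.integral_prod_right' this).measurable
    have m2 : Measurable (fun x => ∫ y, G x y * h' y) := by
      have : StronglyMeasurable (fun p : E N × E N => G p.1 p.2 * h' p.2) :=
        (hG.mul (hh'.comp measurable_snd)).stronglyMeasurable
      exact (StronglyMeasurable.integral_prod_right' this).measurable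
    exact m1.div m2
  · intro x hx
    exact indicator_of_notMem hx _
  · intro x hx
    rw [indicator_of_mem hx]
    have hh : 0 < h x := hpos x hx
    have hH : 0 < ∫ y, G x y * h' y := hh.trans_le (hsub x hx)
    have h1 : (∫ y, G x y * (h' y * V' y)) ≤ B1 * (∫ y, G x y * h' y) + B2 * W x := by
      calc (∫ y, G x y * (h' y * V' y)) ≤ ∫ y, G x y * (B1 * h' y + B2 * W' y) :=
            integral_mono (hiV x hx) (hiUp x hx)
              fun y => mul_le_mul_of_nonneg_left (hupE y) (hG0 x y)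
        _ = B1 * (∫ y, G x y * h' y) + B2 * ∫ y, G x y * W' y := by
            rw [← integral_const_mul, ← integral_const_mul,
              ← integral_add ((hiH x).const_mul B1) ((hiW x hx).const_mul B2)]
            refine integral_congr_ae (Eventually.of_forall fun y => ?_)
            ring
        _ ≤ _ := by
            have := mul_le_mul_of_nonneg_left (hWs x hx) hB2
            linarith
    have h2 : (∫ y, G x y * (h' y * V' y)) / (∫ y, G x y * h' y) ≤ B1 + B2 * W x / h x := by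
      rw [div_le_iff₀ hH]
      have h3 : B2 * W x ≤ B2 * W x / h x * ∫ y, G x y * h' y := by
        rw [div_mul_eq_mul_div, le_div_iff₀ hh]
        exact mul_le_mul_of_nonneg_left (hsub x hx) (mul_nonneg hB2 (hW0 x))
      nlinarith
    calc h x * ((∫ y, G x y * (h' y * V' y)) / (∫ y, G x y * h' y))
        ≤ h x * (B1 + B2 * W x / h x) := mul_le_mul_of_nonneg_left h2 hh.le
      _ = B1 * h x + B2 * W x := by field_simp
  · intro x hx
    rw [indicator_of_mem hx]
    have hh : 0 < h x := hpos x hx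
    set H := ∫ y, G x y * h' y with hHdef
    have hH : 0 < H := hh.trans_le (hsub x hx)
    have h1 : (∫ y, G x y * (h' y * Φ' y)) + (m' * g - κ * ς * m' ^ 2) * H -
        κ * m' * (∫ y, G x y * D' y) - (∫ y, G x y * Sb' y) ≤ ∫ y, G x y * (h' y * V' y) := by
      calc _ = ∫ y, G x y *
            (h' y * Φ' y + (m' * g - κ * ς * m' ^ 2) * h' y - κ * m' * D' y - Sb' y) := by
            have e : (fun y => G x y * (h' y * Φ' y + (m' * g - κ * ς * m' ^ 2) * h' y -
                κ * m' * D' y - Sb' y)) = fun y => (((G x y * (h' y * Φ' y) +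
                (m' * g - κ * ς * m' ^ 2) * (G x y * h' y)) - κ * m' * (G x y * D' y)) -
                G x y * Sb' y) := by
              funext y; ring
            have i1 : Integrable (fun y => G x y * (h' y * Φ' y) +
                (m' * g - κ * ς * m' ^ 2) * (G x y * h' y)) :=
              (hiF x hx).add ((hiH x).const_mul (m' * g - κ * ς * m' ^ 2))
            have i2 : Integrable (fun y => G x y * (h' y * Φ' y) +
                (m' * g - κ * ς * m' ^ 2) * (G x y * h' y) - κ * m' * (G x y * D' y)) :=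
              i1.sub ((hiD x hx).const_mul (κ * m'))
            rw [e, integral_sub i2 (hiS x hx),
              integral_sub i1 ((hiD x hx).const_mul (κ * m')),
              integral_add (hiF x hx) ((hiH x).const_mul (m' * g - κ * ς * m' ^ 2)),
              integral_const_mul, integral_const_mul]
        _ ≤ _ := integral_mono (hiLo x hx) (hiV x hx)
            fun y => mul_le_mul_of_nonneg_left (hloE y) (hG0 x y)
    have hDp : 0 ≤ D x + ς * h x := add_nonneg (hD0 x) (mul_nonneg hς hh.le)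
    have h3 : (∫ y, G x y * D' y) / H ≤ D x / h x + ς := by
      have : D x / h x + ς = (D x + ς * h x) / h x := by field_simp
      rw [this, div_le_div_iff₀ hH hh]
      calc (∫ y, G x y * D' y) * h x ≤ (D x + ς * h x) * h x :=
            mul_le_mul_of_nonneg_right (hDs x hx) hh.le
        _ ≤ (D x + ς * h x) * H := mul_le_mul_of_nonneg_left (hsub x hx) hDp
    have h4 : (∫ y, G x y * Sb' y) / H ≤ Sb x / h x := by
      rw [div_le_div_iff₀ hH hh]
      calc (∫ y, G x y * Sb' y) * h x ≤ Sb x * h x :=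
            mul_le_mul_of_nonneg_right (hSs x hx) hh.le
        _ ≤ Sb x * H := mul_le_mul_of_nonneg_left (hsub x hx) (hSb0 x)
    have h5 := hgain x hx
    have h6 : Φ x + (m' + 1) * g - κ * ς * (m' + 1) ^ 2 - κ * (m' + 1) * (D x / h x) - Sb x / h x ≤
        (∫ y, G x y * (h' y * V' y)) / H := by
      have h7 : (∫ y, G x y * (h' y * Φ' y)) / H + (m' * g - κ * ς * m' ^ 2) -
          κ * m' * ((∫ y, G x y * D' y) / H) - (∫ y, G x y * Sb' y) / H ≤
          (∫ y, G x y * (h' y * V' y)) / H := by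
        rw [le_div_iff₀ hH]
        have : ((∫ y, G x y * (h' y * Φ' y)) / H + (m' * g - κ * ς * m' ^ 2) -
          κ * m' * ((∫ y, G x y * D' y) / H) - (∫ y, G x y * Sb' y) / H) * H =
          (∫ y, G x y * (h' y * Φ' y)) + (m' * g - κ * ς * m' ^ 2) * H -
          κ * m' * (∫ y, G x y * D' y) - (∫ y, G x y * Sb' y) := by
          field_simp
        rw [this]; exact h1
      have h8 : κ * m' * ((∫ y, G x y * D' y) / H) ≤ κ * m' * (D x / h x + ς) :=
        mul_le_mul_of_nonneg_left h3 (mul_nonneg hκ hm')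
      have h9 : κ * ς * (m' ^ 2 + m') ≤ κ * ς * (m' + 1) ^ 2 :=
        mul_le_mul_of_nonneg_left (by nlinarith) (mul_nonneg hκ hς)
      have e1 : κ * m' * (D x / h x + ς) = κ * m' * (D x / h x) + κ * ς * m' := by ring
      have e2 : κ * ς * (m' ^ 2 + m') = κ * ς * m' ^ 2 + κ * ς * m' := by ring
      have e3 : κ * (m' + 1) * (D x / h x) = κ * m' * (D x / h x) + κ * (D x / h x) := by ring
      rw [e1] at h8
      rw [e2] at h9
      rw [e3]
      have e4 : (m' + 1) * g = m' * g + g := by ring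
      rw [e4]
      linarith
    have h10 := mul_le_mul_of_nonneg_left h6 hh.le
    refine le_trans (le_of_eq ?_) h10
    field_simp
    ring

theorem pf_ITER : T_ITER := by
  intro N n G h D Sb Φ W Bx A g κ ς B1 B2 M x0 hBx hA hGm hG0 hGi hms hbd hg hκ hς hB1 hB2
    hint hpos hsub hDs hSs hWs hgain hout htop hWA hx0
  have key : ∀ m : ℕ, ∀ j : ℕ, j + m = n → ∃ V : E N → ℝ, Measurable V ∧ (∀ x ∉ Bx, V x = 0) ∧
      (∀ x ∈ Bx, h j x * V x ≤ B1 * h j x + B2 * W j x) ∧
      (∀ x ∈ Bx, h j x * Φ j x + ((m : ℝ) * g - κ * ς * (m : ℝ) ^ 2) * h j x -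
        κ * (m : ℝ) * D j x - Sb j x ≤ h j x * V x) := by
    intro m
    induction m with
    | zero =>
      intro j hj
      have hjn : j = n := by omega
      subst hjn
      refine ⟨Bx.indicator (Φ j), ((hms j).2.2.2.1).indicator hBx,
        fun x hx => indicator_of_notMem hx _, ?_, ?_⟩
      · intro x hx
        rw [indicator_of_mem hx]
        have h0 := (hbd j x).1
        have hW := (hbd j x).2.2.2.2
        rcases htop x hx with h1 | ⟨hxA, h1⟩
        · have := mul_le_mul_of_nonneg_left h1 h0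
          have := mul_nonneg hB2 hW
          nlinarith
        · have h2 := mul_le_mul_of_nonneg_left h1 h0
          have h3 := mul_le_mul_of_nonneg_left (hWA x ⟨hx, hxA⟩) hB2
          nlinarith
      · intro x hx
        rw [indicator_of_mem hx]
        have := (hbd j x).2.2.2.1
        simp only [Nat.cast_zero]
        nlinarith
    | succ m ih =>
      intro j hj
      obtain ⟨V', hV', hV0, hup, hlo⟩ := ih (j + 1) (by omega)
      have hjn : j < n := by omega
      have hmn : (m : ℝ) ≤ (n : ℝ) := by exact_mod_cast (by omega : m ≤ n)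
      obtain ⟨V, a1, a2, a3, a4⟩ := step (G j) (h j) (h (j + 1)) (D j) (D (j + 1)) (Sb j)
        (Sb (j + 1)) (Φ j) (Φ (j + 1)) (W j) (W (j + 1)) V' Bx g κ ς B1 B2 M n m hBx
        (hGm j) (hG0 j) (fun x => (hGi j x).1) (hms (j + 1)).1 hV'
        (fun x => (hbd (j + 1) x).1) (fun x => (hbd (j + 1) x).2.1)
        (fun x => (hbd j x).2.2.1) (fun x => (hbd (j + 1) x).2.2.1)
        (fun x => (hbd j x).2.2.2.1) (fun x => (hbd j x).2.2.2.2)
        (fun x => (hbd (j + 1) x).2.2.2.2) hg hκ hς hB1 hB2 (Nat.cast_nonneg m) hmn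
        (fun x hx => (hint j hjn x hx).1) (fun x hx => (hint j hjn x hx).2.1)
        (fun x hx => (hint j hjn x hx).2.2.1) (fun x hx => (hint j hjn x hx).2.2.2)
        (fun x hx => hpos j hjn.le x hx) (fun x hx => hsub j hjn x hx)
        (fun x hx => hDs j hjn x hx) (fun x hx => hSs j hjn x hx)
        (fun x hx => hWs j hjn x hx) (fun x hx => hgain j hjn x hx)
        (fun x hx => hout (j + 1) (by omega) x hx) hV0 hup hlo
      refine ⟨V, a1, a2, a3, ?_⟩
      intro x hx
      have := a4 x hx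
      push_cast
      exact this
  obtain ⟨V, -, -, hup, hlo⟩ := key n 0 (by omega)
  have h1 := (hlo x0 hx0).trans (hup x0 hx0)
  have hh : 0 < h 0 x0 := hpos 0 (Nat.zero_le n) x0 hx0
  have h2 : (h 0 x0 * Φ 0 x0 + ((n : ℝ) * g - κ * ς * (n : ℝ) ^ 2) * h 0 x0 -
        κ * (n : ℝ) * D 0 x0 - Sb 0 x0) / h 0 x0 ≤
      (B1 * h 0 x0 + B2 * W 0 x0) / h 0 x0 := div_le_div_of_nonneg_right h1 hh.le
  have e1 : (h 0 x0 * Φ 0 x0 + ((n : ℝ) * g - κ * ς * (n : ℝ) ^ 2) * h 0 x0 -
        κ * (n : ℝ) * D 0 x0 - Sb 0 x0) / h 0 x0 =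
      Φ 0 x0 + n * g - κ * n * (D 0 x0 / h 0 x0) - Sb 0 x0 / h 0 x0 - κ * n ^ 2 * ς := by
    field_simp
    ring
  have e2 : (B1 * h 0 x0 + B2 * W 0 x0) / h 0 x0 = B1 + B2 * (W 0 x0 / h 0 x0) := by
    field_simp
  rw [e1, e2] at h2
  exact h2

end Pool.Agent.H34.RF.ITER
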