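import Pool.Agent.H34.RF.PWC

/-!
# MP_609556_an, module PW: the entropy inequality in a moving environment
-/

open MeasureTheory Set Filter Topology Metric Real
open Pool.Agent.H29.TF (hk P)
open Pool.Agent.H91.RD Pool.Agent.H91.RF

namespace Pool.Agent.H34.RF.PW

variable {N : ℕ} {V : ℝ → E N → ℝ} {w : E N} {p : E N → ℝ}

/-- the mean after `j` steps -/
theorem men_bd {C τ : ℝ} (hτ : 0 < τ)
    (h1 : ∀ S > 0, ‖men V w p (S + τ) - men V w p S‖ ≤ C * τ ∧ ‖men V w p τ‖ ≤ C * τ) (j : ℕ) :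
    ‖men V w p (((j : ℝ) + 1) * τ)‖ ≤ C * (((j : ℝ) + 1) * τ) := by
  induction j with
  | zero =>
    have := (h1 1 one_pos).2
    simpa using this
  | succ j ih =>
    have h2 := (h1 (((j : ℝ) + 1) * τ) (by positivity)).1
    have h3 : (((j + 1 : ℕ) : ℝ) + 1) * τ = ((j : ℝ) + 1) * τ + τ := by push_cast; ring
    rw [h3]
    calc ‖men V w p (((j : ℝ) + 1) * τ + τ)‖
        = ‖(men V w p (((j : ℝ) + 1) * τ + τ) - men V w p (((j : ℝ) + 1) * τ)) +
            men V w p (((j : ℝ) + 1) * τ)‖ := by rw [sub_add_cancel]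
      _ ≤ C * τ + C * (((j : ℝ) + 1) * τ) := (norm_add_le _ _).trans (add_le_add h2 ih)
      _ = _ := by ring

/-- telescoping of the entropy production -/
theorem tele {τ c : ℝ} (hτ : 0 < τ) (θ : E N)
    (h1 : ∀ s > 0, Jen V w p (s + τ) ≤ Jen V w p s +
      inner ℝ θ (men V w p (s + τ) - men V w p s) +
        inner ℝ θ (men V w p (s + 2 * τ) - men V w p (s + τ)) + c) (j : ℕ) :
    Jen V w p (((j : ℝ) + 1) * τ) ≤ Jen V w p τ +
      inner ℝ θ (men V w p (((j : ℝ) + 1) * τ) - men V w p τ) +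
      inner ℝ θ (men V w p (((j : ℝ) + 2) * τ) - men V w p (2 * τ)) + j * c := by
  induction j with
  | zero => simp
  | succ j ih =>
    have h2 := h1 (((j : ℝ) + 1) * τ) (by positivity)
    have e1 : (((j + 1 : ℕ) : ℝ) + 1) * τ = ((j : ℝ) + 1) * τ + τ := by push_cast; ring
    have e2 : (((j + 1 : ℕ) : ℝ) + 2) * τ = ((j : ℝ) + 1) * τ + 2 * τ := by push_cast; ring
    have e3 : ((j : ℝ) + 2) * τ = ((j : ℝ) + 1) * τ + τ := by ring
    rw [e3] at ih
    rw [e1, e2]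
    simp only [inner_sub_right] at h2 ih ⊢
    push_cast
    linarith

theorem pf_PW (hB : T_KBD) (hA : T_PWA) (hPB : T_PWB) (hPC : T_PWC) : T_PW := by
  intro N K C1 Kw ε hN hK hC1 hKw hε
  obtain ⟨Ca, hCa, hCa'⟩ := hPC N K C1 Kw hKw
  have hCa0 : 0 < Ca := by linarith
  obtain ⟨Cb, hCb, hCb'⟩ := hPB N K C1 Kw Ca hCa0
  have hCb0 : 0 < Cb := by linarith
  obtain ⟨_, _, hP⟩ := hA N K C1 Kw 1 one_pos
  -- the time step
  set τ0 : ℝ := min 1 ((ε / (2 * Cb)) ^ 2) with hτ0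
  have hτ00 : 0 < τ0 := lt_min one_pos (by positivity)
  have hτ01 : τ0 ≤ 1 := min_le_left _ _
  have hτ0s : Cb * √τ0 ≤ ε / 2 := by
    have h1 : √τ0 ≤ ε / (2 * Cb) := by
      rw [Real.sqrt_le_left (by positivity)]
      exact min_le_right _ _
    calc Cb * √τ0 ≤ Cb * (ε / (2 * Cb)) := mul_le_mul_of_nonneg_left h1 hCb0.le
      _ = ε / 2 := by field_simp
  set δ : ℝ := ε / Ca with hδ
  have hδ0 : 0 < δ := by positivity
  set D : ℝ := Ca * (1 - Real.log δ + Real.log (2 / τ0)) + 4 * Ca ^ 2 with hD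
  refine ⟨max 1 (2 * |D| / ε), by positivity, ?_⟩
  intro S hS V w p hs m hm
  have hS1 : 1 ≤ S := (le_max_left _ _).trans hS
  have hS0 : 0 < S := by linarith
  have hSD : |D| ≤ ε * S / 2 := by
    have h1 : 2 * |D| / ε ≤ S := (le_max_right _ _).trans hS
    rw [div_le_iff₀ hε] at h1
    linarith
  obtain ⟨hmk, hkpos, hmass, -⟩ := hP V w p hs
  obtain ⟨b1, b2, b3, b4⟩ := hCa' V w p hs
  have b5 := hCb' V w p hs
  -- number of steps
  obtain ⟨k, hk1, hk2⟩ : ∃ k : ℕ, S / τ0 ≤ (k : ℝ) + 1 ∧ (k : ℝ) ≤ S / τ0 := by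
    refine ⟨⌊S / τ0⌋₊, (Nat.lt_floor_add_one _).le, Nat.floor_le (by positivity)⟩
  set τ : ℝ := S / ((k : ℝ) + 1) with hτ
  have hk0 : (0 : ℝ) < (k : ℝ) + 1 := by positivity
  have hτpos : 0 < τ := by positivity
  have hkτ : ((k : ℝ) + 1) * τ = S := by rw [hτ]; field_simp
  have hττ0 : τ ≤ τ0 := by
    rw [hτ, div_le_iff₀ hk0]
    rwa [div_le_iff₀ hτ00, mul_comm] at hk1
  have hτ1 : τ ≤ 1 := hττ0.trans hτ01
  have hτlow : τ0 / 2 ≤ τ := by
    rw [hτ, le_div_iff₀ hk0]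
    have h1 : (k : ℝ) * τ0 ≤ S := by rwa [le_div_iff₀ hτ00] at hk2
    have h2 : τ0 / 2 * ((k : ℝ) + 1) = ((k : ℝ) * τ0 + τ0) / 2 := by ring
    rw [h2]
    linarith
  -- the mean
  have hmb : ‖men V w p S‖ ≤ Ca * S := by
    have := men_bd (V := V) (w := w) (p := p) (C := Ca) hτpos
      (fun S' hS' => b3 S' hS' τ hτpos hτ1) k
    rwa [hkτ] at this
  set M : E N := men V w p S with hMdef
  set θ : E N := -(S⁻¹ • M) with hθ
  have hθn : ‖θ‖ = ‖M‖ / S := by
    rw [hθ, norm_neg, norm_smul, norm_inv, Real.norm_eq_abs, abs_of_pos hS0]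
    field_simp
  have hθb : ‖θ‖ ≤ Ca := by
    rw [hθn, div_le_iff₀ hS0]; exact hmb
  have ht := tele (V := V) (w := w) (p := p) (c := ‖θ‖ ^ 2 * τ + Cb * (τ * √τ)) hτpos θ
    (fun s hs' => by
      have := b5 s hs' τ hτpos hτ1 θ hθb
      linarith) k
  rw [hkτ] at ht
  -- the means at the ends
  have c1 : ‖men V w p τ‖ ≤ Ca * τ := (b3 1 one_pos τ hτpos hτ1).2
  have c2 : ‖men V w p (2 * τ)‖ ≤ 2 * (Ca * τ) := by
    have h1 := (b3 τ hτpos τ hτpos hτ1).1
    have e : (2 : ℝ) * τ = τ + τ := by ring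
    rw [e]
    calc ‖men V w p (τ + τ)‖ = ‖(men V w p (τ + τ) - men V w p τ) + men V w p τ‖ := by
          rw [sub_add_cancel]
      _ ≤ Ca * τ + Ca * τ := (norm_add_le _ _).trans (add_le_add h1 c1)
      _ = _ := by ring
  have c3 : ‖men V w p (((k : ℝ) + 2) * τ) - M‖ ≤ Ca * τ := by
    have h1 := (b3 S hS0 τ hτpos hτ1).1
    have e : ((k : ℝ) + 2) * τ = S + τ := by rw [← hkτ]; ring
    rw [e]; exact h1
  have hin : ∀ v : E N, inner ℝ θ v ≤ Ca * ‖v‖ := fun v =>
    (real_inner_le_norm θ v).trans (mul_le_mul_of_nonneg_right hθb (norm_nonneg v))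
  have d1 : inner ℝ θ (men V w p S - men V w p τ) ≤ inner ℝ θ M + Ca * (Ca * τ) := by
    have h1 := hin (-men V w p τ)
    rw [norm_neg] at h1
    rw [sub_eq_add_neg, inner_add_right]
    have := mul_le_mul_of_nonneg_left c1 hCa0.le
    linarith
  have d2 : inner ℝ θ (men V w p (((k : ℝ) + 2) * τ) - men V w p (2 * τ)) ≤
      inner ℝ θ M + Ca * (3 * (Ca * τ)) := by
    have e : men V w p (((k : ℝ) + 2) * τ) - men V w p (2 * τ) =
        M + ((men V w p (((k : ℝ) + 2) * τ) - M) - men V w p (2 * τ)) := by abel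
    rw [e, inner_add_right]
    have h1 := hin ((men V w p (((k : ℝ) + 2) * τ) - M) - men V w p (2 * τ))
    have h2 := norm_sub_le (men V w p (((k : ℝ) + 2) * τ) - M) (men V w p (2 * τ))
    have h3 : ‖(men V w p (((k : ℝ) + 2) * τ) - M) - men V w p (2 * τ)‖ ≤ 3 * (Ca * τ) := by
      linarith
    have := mul_le_mul_of_nonneg_left h3 hCa0.le
    linarith
  have d3 : inner ℝ θ M = -(‖M‖ ^ 2 / S) := by
    rw [hθ, inner_neg_left, real_inner_smul_left, real_inner_self_eq_norm_sq]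
    field_simp
  have d4 : (k : ℝ) * (‖θ‖ ^ 2 * τ + Cb * (τ * √τ)) ≤ ‖M‖ ^ 2 / S + ε / 2 * S := by
    have h1 : (k : ℝ) * τ ≤ S := by
      have h0 : ((k : ℝ) + 1) * τ = (k : ℝ) * τ + τ := by ring
      rw [← hkτ, h0]
      linarith
    have h2 : ‖θ‖ ^ 2 * S = ‖M‖ ^ 2 / S := by rw [hθn]; field_simp
    have h3 : √τ ≤ √τ0 := Real.sqrt_le_sqrt hττ0
    have h4 : Cb * √τ ≤ ε / 2 := (mul_le_mul_of_nonneg_left h3 hCb0.le).trans hτ0s
    have h5 : ‖θ‖ ^ 2 * ((k : ℝ) * τ) ≤ ‖θ‖ ^ 2 * S :=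
      mul_le_mul_of_nonneg_left h1 (sq_nonneg _)
    have h6 : (Cb * √τ) * ((k : ℝ) * τ) ≤ ε / 2 * S :=
      mul_le_mul h4 h1 (by positivity) (by positivity)
    calc (k : ℝ) * (‖θ‖ ^ 2 * τ + Cb * (τ * √τ))
        = ‖θ‖ ^ 2 * ((k : ℝ) * τ) + (Cb * √τ) * ((k : ℝ) * τ) := by ring
      _ ≤ ‖θ‖ ^ 2 * S + ε / 2 * S := add_le_add h5 h6
      _ = _ := by rw [h2]
  have e1 := b1 τ hτpos hτ1
  have e2 := b2 S hS1
  -- the logarithms
  have g1 : Real.log (1 / τ) ≤ Real.log (2 / τ0) := by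
    refine Real.log_le_log (by positivity) ?_
    rw [div_le_div_iff₀ hτpos hτ00]
    linarith
  have g2 : Real.log S ≤ δ * S - 1 - Real.log δ := by
    have := Real.log_le_sub_one_of_pos (mul_pos hδ0 hS0)
    rw [Real.log_mul hδ0.ne' hS0.ne'] at this
    linarith
  have g3 : Ca * Real.log S ≤ ε * S - Ca - Ca * Real.log δ := by
    have h1 := mul_le_mul_of_nonneg_left g2 hCa0.le
    have h2 : Ca * (δ * S - 1 - Real.log δ) = ε * S - Ca - Ca * Real.log δ := by
      rw [hδ]; field_simp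
    linarith
  have g4 : Ca * Real.log (1 / τ) ≤ Ca * Real.log (2 / τ0) :=
    mul_le_mul_of_nonneg_left g1 hCa0.le
  have g5 : 4 * Ca ^ 2 * τ ≤ 4 * Ca ^ 2 := by
    have : 0 ≤ 4 * Ca ^ 2 := by positivity
    exact mul_le_of_le_one_right this hτ1
  -- mean and the shifted mean
  have hshift : ∀ φ : E N → ℝ, (∫ y, rw0 V w p S y * φ y) =
      ∫ y, gk V 0 0 (-S) y * p (y + S • w) / p 0 * φ (y + S • w) := fun φ => b4 S hS0 φ
  have hone := Pool.Agent.H34.RF.PWC.rw_one hmass hS0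
  have hM2 : M = m + S • w := by
    have hv := Pool.Agent.H34.RF.PWC.vec_int hB hmk hs hS0
    have hi := Pool.Agent.H34.RF.PWC.rw_integrable hmass hS0
    have h1 : (∫ y, gk V 0 0 (-S) y * p (y + S • w) / p 0) = 1 := by
      have := hshift (fun _ => 1)
      simp only [mul_one] at this
      rw [← this, hone]
    have h2 : (∫ y, rw0 V w p S y • y) =
        ∫ y, (gk V 0 0 (-S) y * p (y + S • w) / p 0) • (y + S • w) := by
      rw [← integral_add_right_eq_self (fun y => rw0 V w p S y • y) (S • w)]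
      refine integral_congr_ae (Eventually.of_forall fun y => ?_)
      simp only [rw0, kw, add_sub_cancel_right]
    have hv2 : Integrable (fun y => (gk V 0 0 (-S) y * p (y + S • w) / p 0) • (y + S • w)) := by
      have := hv.comp_add_right (S • w)
      refine this.congr (Eventually.of_forall fun y => ?_)
      simp only [rw0, kw, add_sub_cancel_right]
    have hi2 : Integrable (fun y => (gk V 0 0 (-S) y * p (y + S • w) / p 0)) := by
      have := hi.comp_add_right (S • w)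
      refine this.congr (Eventually.of_forall fun y => ?_)
      simp only [rw0, kw, add_sub_cancel_right]
    have h3 : (∫ y, (gk V 0 0 (-S) y * p (y + S • w) / p 0) • (y + S • w)) =
        m + S • w := by
      have i3 : Integrable (fun y => (gk V 0 0 (-S) y * p (y + S • w) / p 0) • y) := by
        have := hv2.sub (hi2.smul_const (S • w))
        refine this.congr (Eventually.of_forall fun y => ?_)
        simp only [Pi.sub_apply, smul_add, add_sub_cancel_right]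
      simp only [smul_add]
      rw [integral_add i3 (hi2.smul_const (S • w)), integral_smul_const, h1, one_smul, hm]
    rw [hMdef, men, h2, h3]
  have hquad : ‖M‖ ^ 2 / S - inner ℝ w M = ‖m‖ ^ 2 / S + inner ℝ m w := by
    have h1 : ‖M‖ ^ 2 = ‖m‖ ^ 2 + 2 * (S * inner ℝ m w) + S ^ 2 * ‖w‖ ^ 2 := by
      rw [hM2, norm_add_sq_real, real_inner_smul_right, norm_smul, Real.norm_eq_abs, mul_pow,
        sq_abs]
    have h2 : inner ℝ w M = inner ℝ m w + S * ‖w‖ ^ 2 := by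
      rw [hM2, inner_add_right, real_inner_smul_right, real_inner_self_eq_norm_sq,
        real_inner_comm]
    rw [h1, h2]
    field_simp
    ring
  rw [← hshift (fun y => Real.log (p y))]
  have hfin : 2 * ∫ y, rw0 V w p S y * Real.log (p y) ≥
      2 * Real.log (p 0) + (‖m‖ ^ 2 / S + inner ℝ m w) - 2 * (ε * S) := by
    have hDle := (le_abs_self D).trans hSD
    have hDe : D = Ca - Ca * Real.log δ + Ca * Real.log (2 / τ0) + 4 * Ca ^ 2 := by
      rw [hD]; ring
    rw [← hquad]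
    rw [hDe] at hDle
    rw [d3] at d1 d2
    linarith
  linarith

end Pool.Agent.H34.RF.PW
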