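import Pool.Agent.H34.RF.PWCa

/-!
# MP_609556_an, module PWC: entropy at the two ends
-/

open MeasureTheory Set Filter Topology Metric Real
open Pool.Agent.H29.TF (hk P)
open Pool.Agent.H91.RD Pool.Agent.H91.RF

namespace Pool.Agent.H34.RF.PWC

variable {N : ℕ} {K C1 Kw : ℝ} {V : ℝ → E N → ℝ} {w : E N} {p : E N → ℝ}

theorem plog_int (hB : T_KBD) (hm : ∀ τ > 0, Measurable (fun q : E N × E N => kw V w p τ q.1 q.2))
    (hs : Sty K C1 Kw V w p) {S : ℝ} (hS : 0 < S) :
    Integrable (fun y => rw0 V w p S y * Real.log (p y)) := by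
  have hC1 : 0 ≤ C1 := by linarith [hs.hC1]
  refine rw_int hB hm hs hS (Real.measurable_log.comp (p_cont hs).measurable)
    (A := C1 + |Real.log (p 0)|) fun y => ?_
  have h1 := p_log hs y
  have h2 := mul_le_mul_of_nonneg_left (norm_le_exp y) hC1
  have h3 : |Real.log (p 0)| ≤ |Real.log (p 0)| * Real.exp ‖y‖ :=
    le_mul_of_one_le_right (abs_nonneg _) (one_le_exp' y)
  have h4 : |Real.log (p y)| ≤ |Real.log (p y) - Real.log (p 0)| + |Real.log (p 0)| := by
    have := abs_add_le (Real.log (p y) - Real.log (p 0)) (Real.log (p 0))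
    rwa [sub_add_cancel] at this
  rw [add_mul]
  linarith

theorem inner_int (hB : T_KBD) (hm : ∀ τ > 0, Measurable (fun q : E N × E N => kw V w p τ q.1 q.2))
    (hs : Sty K C1 Kw V w p) {S : ℝ} (hS : 0 < S) (v : E N) :
    Integrable (fun y => rw0 V w p S y * inner ℝ v y) := by
  refine rw_int hB hm hs hS (by fun_prop) (A := ‖v‖) fun y => ?_
  refine (abs_real_inner_le_norm v y).trans ?_
  exact mul_le_mul_of_nonneg_left (norm_le_exp y) (norm_nonneg v)

theorem vec_int (hB : T_KBD) (hm : ∀ τ > 0, Measurable (fun q : E N × E N => kw V w p τ q.1 q.2))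
    (hs : Sty K C1 Kw V w p) {S : ℝ} (hS : 0 < S) :
    Integrable (fun y => rw0 V w p S y • y) := by
  have h1 : Integrable (fun y => rw0 V w p S y * ‖y‖) :=
    rw_int hB hm hs hS (by fun_prop) (A := 1) fun y => by
      rw [abs_of_nonneg (norm_nonneg y), one_mul]; exact norm_le_exp y
  refine h1.mono' ((rw_meas hm hS).smul measurable_id).aestronglyMeasurable
    (Eventually.of_forall fun y => ?_)
  rw [norm_smul, Real.norm_eq_abs, abs_of_pos (rw_pos hB hs hS y)]

theorem Jen_eq (hB : T_KBD) (hm : ∀ τ > 0, Measurable (fun q : E N × E N => kw V w p τ q.1 q.2))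
    (hs : Sty K C1 Kw V w p) {S : ℝ} (hS : 0 < S) :
    Jen V w p S = (∫ y, rw0 V w p S y * Real.log (rw0 V w p S y)) - inner ℝ w (men V w p S) -
      2 * ∫ y, rw0 V w p S y * Real.log (p y) := by
  unfold Jen men
  have h1 : inner ℝ w (∫ y, rw0 V w p S y • y) = ∫ y, rw0 V w p S y * inner ℝ w y := by
    rw [← integral_inner (vec_int hB hm hs hS) w]
    refine integral_congr_ae (Eventually.of_forall fun y => ?_)
    simp only [inner_smul_right]
  have i1 : Integrable (fun y => rw0 V w p S y * Real.log (rw0 V w p S y) -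
      rw0 V w p S y * inner ℝ w y) := (rw_log_int hB hm hs hS).sub (inner_int hB hm hs hS w)
  rw [h1, ← integral_sub (rw_log_int hB hm hs hS) (inner_int hB hm hs hS w),
    ← integral_const_mul, ← integral_sub i1 ((plog_int hB hm hs hS).const_mul 2)]
  refine integral_congr_ae (Eventually.of_forall fun y => ?_)
  ring

/-- (i) -/
theorem start (hB : T_KBD) (hm : ∀ τ > 0, Measurable (fun q : E N × E N => kw V w p τ q.1 q.2))
    (hmass : ∀ τ > 0, ∀ x, ∫ y, kw V w p τ x y = 1)
    (hs : Sty K C1 Kw V w p) {τ : ℝ} (h0 : 0 < τ) (h1 : τ ≤ 1) :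
    Jen V w p τ ≤ K + (N : ℝ) / 2 * Real.log (1 / τ) +
      (3 * C1 + Kw) * Mx N K (C1 + 1) Kw 1 - 2 * Real.log (p 0) := by
  have hK := hs.pt.K0
  have hC1 : 0 ≤ C1 := by linarith [hs.hC1]
  have hKw : 0 ≤ Kw := (norm_nonneg w).trans hs.wle
  have hlog : ∀ y, Real.log (rw0 V w p τ y) ≤ K + C1 * ‖y‖ + (N : ℝ) / 2 * Real.log (1 / τ) := by
    intro y
    have h3 : 0 < hk τ (τ • w - y) := Pool.Agent.H29.TF.hk_pos h0 _
    have h2 := Real.log_le_log (rw_pos hB hs h0 y) (rw_le hB hs h0 y)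
    rw [Real.log_mul (by positivity) (by positivity), Real.log_mul (by positivity) (by positivity),
      Real.log_exp, Real.log_exp, hk_log h0] at h2
    have h4 : Real.log (4 * π * τ) = Real.log (4 * π) + Real.log τ :=
      Real.log_mul (by positivity) h0.ne'
    have h5 : 0 ≤ Real.log (4 * π) := Real.log_nonneg (by linarith [Real.pi_gt_three])
    have h6 : Real.log (1 / τ) = -Real.log τ := by rw [one_div, Real.log_inv]
    have h7 : 0 ≤ ‖τ • w - y‖ ^ 2 / (4 * τ) := by positivity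
    have h8 : 0 ≤ (N : ℝ) / 2 * Real.log (4 * π) := mul_nonneg (by positivity) h5
    have h9 : K * τ ≤ K := by nlinarith
    rw [h4, mul_add] at h2
    rw [h6]
    linarith
  have hpt : ∀ y, rw0 V w p τ y * (Real.log (rw0 V w p τ y) - inner ℝ w y -
      2 * Real.log (p y)) ≤ (K + (N : ℝ) / 2 * Real.log (1 / τ) - 2 * Real.log (p 0)) *
      rw0 V w p τ y + (3 * C1 + Kw) * (rw0 V w p τ y * Real.exp (1 * ‖y‖)) := by
    intro y
    have hr := (rw_pos hB hs h0 y).le
    have a1 := hlog y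
    have a2 : -inner ℝ w y ≤ Kw * ‖y‖ := by
      have := neg_le_of_abs_le (abs_real_inner_le_norm w y)
      have := mul_le_mul_of_nonneg_right hs.wle (norm_nonneg y)
      linarith
    have a3 : Real.log (p 0) - Real.log (p y) ≤ C1 * ‖y‖ := by
      have := (abs_le.1 (p_log hs y)).1
      linarith
    have a4 : (3 * C1 + Kw) * ‖y‖ ≤ (3 * C1 + Kw) * Real.exp ‖y‖ :=
      mul_le_mul_of_nonneg_left (norm_le_exp y) (by positivity)
    have a5 : Real.log (rw0 V w p τ y) - inner ℝ w y - 2 * Real.log (p y) ≤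
        (K + (N : ℝ) / 2 * Real.log (1 / τ) - 2 * Real.log (p 0)) +
          (3 * C1 + Kw) * Real.exp ‖y‖ := by
      linarith
    rw [one_mul]
    calc _ ≤ rw0 V w p τ y * ((K + (N : ℝ) / 2 * Real.log (1 / τ) - 2 * Real.log (p 0)) +
          (3 * C1 + Kw) * Real.exp ‖y‖) := mul_le_mul_of_nonneg_left a5 hr
      _ = _ := by ring
  have i0 := rw_integrable hmass h0
  have i1 := rw_exp_int hB hm hs h0 (a := 1) zero_le_one
  have hint : Integrable (fun y => rw0 V w p τ y * (Real.log (rw0 V w p τ y) - inner ℝ w y -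
      2 * Real.log (p y))) := by
    have := ((rw_log_int hB hm hs h0).sub (inner_int hB hm hs h0 w)).sub
      ((plog_int hB hm hs h0).const_mul 2)
    refine this.congr (Eventually.of_forall fun y => ?_)
    simp only [Pi.sub_apply]; ring
  have hM : Mx N K (C1 + 1) Kw τ ≤ Mx N K (C1 + 1) Kw 1 := by
    unfold Mx
    refine mul_le_mul_of_nonneg_right (Real.exp_le_exp.2 ?_) (by positivity)
    have b1 : K * τ ≤ K * 1 := mul_le_mul_of_nonneg_left h1 hK.le
    have b2 : (C1 + 1) * (τ * Kw) ≤ (C1 + 1) * (1 * Kw) :=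
      mul_le_mul_of_nonneg_left (mul_le_mul_of_nonneg_right h1 hKw) (by positivity)
    have b3 : 2 * (C1 + 1) ^ 2 * τ ≤ 2 * (C1 + 1) ^ 2 * 1 :=
      mul_le_mul_of_nonneg_left h1 (by positivity)
    linarith
  unfold Jen
  calc _ ≤ ∫ y, ((K + (N : ℝ) / 2 * Real.log (1 / τ) - 2 * Real.log (p 0)) *
      rw0 V w p τ y + (3 * C1 + Kw) * (rw0 V w p τ y * Real.exp (1 * ‖y‖))) :=
        integral_mono hint ((i0.const_mul _).add (i1.1.const_mul _)) hpt
    _ = (K + (N : ℝ) / 2 * Real.log (1 / τ) - 2 * Real.log (p 0)) +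
        (3 * C1 + Kw) * ∫ y, rw0 V w p τ y * Real.exp (1 * ‖y‖) := by
        rw [integral_add (i0.const_mul _) (i1.1.const_mul _), integral_const_mul,
          integral_const_mul, rw_one hmass h0, mul_one]
    _ ≤ _ := by
        have := mul_le_mul_of_nonneg_left (i1.2.trans hM)
          (by positivity : 0 ≤ 3 * C1 + Kw)
        linarith

/-- second moment -/
theorem second (hB : T_KBD) (hm : ∀ τ > 0, Measurable (fun q : E N × E N => kw V w p τ q.1 q.2))
    (hmass : ∀ τ > 0, ∀ x, ∫ y, kw V w p τ x y = 1)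
    (hs : Sty K C1 Kw V w p) {S : ℝ} (hS : 1 ≤ S) :
    Integrable (fun y => rw0 V w p S y * ‖y‖ ^ 2) ∧
    ∫ y, rw0 V w p S y * ‖y‖ ^ 2 ≤
      (4 * (K + (C1 + 1) * Kw + 2 * (C1 + 1) ^ 2) ^ 2 + 8 * (2 : ℝ) ^ ((N : ℝ) / 2)) * S ^ 2 := by
  have hS0 : 0 < S := by linarith
  have hK := hs.pt.K0
  have hC1 : 0 ≤ C1 := by linarith [hs.hC1]
  have hKw : 0 ≤ Kw := (norm_nonneg w).trans hs.wle
  set c2 : ℝ := K + (C1 + 1) * Kw + 2 * (C1 + 1) ^ 2 with hc2
  have hc20 : 0 ≤ c2 := by positivity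
  have i0 := rw_integrable hmass hS0
  have i1 := rw_exp_int hB hm hs hS0 (a := 1) zero_le_one
  have hMx : Mx N K (C1 + 1) Kw S = Real.exp (c2 * S) * (2 : ℝ) ^ ((N : ℝ) / 2) := by
    unfold Mx; rw [hc2]; congr 2; ring
  have hint : Integrable (fun y => rw0 V w p S y * ‖y‖ ^ 2) :=
    rw_int hB hm hs hS0 (by fun_prop) (A := 2) fun y => by
      rw [abs_of_nonneg (by positivity)]; exact sq_le_exp y
  have hpt : ∀ y : E N, ‖y‖ ^ 2 ≤ (2 * c2 * S) ^ 2 +
      8 * Real.exp (-(c2 * S)) * Real.exp (1 * ‖y‖) := by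
    intro y
    rw [one_mul]
    by_cases hy : ‖y‖ ≤ 2 * c2 * S
    · have h1 : ‖y‖ ^ 2 ≤ (2 * c2 * S) ^ 2 := pow_le_pow_left₀ (norm_nonneg y) hy 2
      have h2 : 0 ≤ 8 * Real.exp (-(c2 * S)) * Real.exp ‖y‖ := by positivity
      linarith
    · push Not at hy
      have h1 : ‖y‖ ^ 2 ≤ 8 * Real.exp (‖y‖ / 2) := by
        have := Real.quadratic_le_exp_of_nonneg (by positivity : 0 ≤ ‖y‖ / 2)
        nlinarith [norm_nonneg y]
      have h2 : Real.exp (‖y‖ / 2) ≤ Real.exp (-(c2 * S)) * Real.exp ‖y‖ := by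
        rw [← Real.exp_add, Real.exp_le_exp]; linarith
      have h3 : 0 ≤ (2 * c2 * S) ^ 2 := sq_nonneg _
      linarith
  refine ⟨hint, ?_⟩
  calc ∫ y, rw0 V w p S y * ‖y‖ ^ 2
      ≤ ∫ y, ((2 * c2 * S) ^ 2 * rw0 V w p S y +
        8 * Real.exp (-(c2 * S)) * (rw0 V w p S y * Real.exp (1 * ‖y‖))) := by
        refine integral_mono hint ((i0.const_mul _).add (i1.1.const_mul _)) fun y => ?_
        have := mul_le_mul_of_nonneg_left (hpt y) (rw_pos hB hs hS0 y).le
        simp only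
        linarith
    _ = (2 * c2 * S) ^ 2 + 8 * Real.exp (-(c2 * S)) *
        ∫ y, rw0 V w p S y * Real.exp (1 * ‖y‖) := by
        rw [integral_add (i0.const_mul _) (i1.1.const_mul _), integral_const_mul,
          integral_const_mul, rw_one hmass hS0, mul_one]
    _ ≤ (2 * c2 * S) ^ 2 + 8 * Real.exp (-(c2 * S)) *
        (Real.exp (c2 * S) * (2 : ℝ) ^ ((N : ℝ) / 2)) := by
        have h2 := i1.2
        rw [hMx] at h2
        have := mul_le_mul_of_nonneg_left h2 (by positivity : 0 ≤ 8 * Real.exp (-(c2 * S)))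
        linarith
    _ = 4 * c2 ^ 2 * S ^ 2 + 8 * (2 : ℝ) ^ ((N : ℝ) / 2) * 1 := by
        have : Real.exp (-(c2 * S)) * Real.exp (c2 * S) = 1 := by
          rw [← Real.exp_add, neg_add_cancel, Real.exp_zero]
        linear_combination (8 * (2 : ℝ) ^ ((N : ℝ) / 2)) * this
    _ ≤ _ := by
        have h3 : (1 : ℝ) ≤ S ^ 2 := by nlinarith
        have h4 : 0 ≤ 8 * (2 : ℝ) ^ ((N : ℝ) / 2) := by positivity
        nlinarith

/-- Gibbs' inequality for the entropy -/
theorem gibbs (hB : T_KBD) (hm : ∀ τ > 0, Measurable (fun q : E N × E N => kw V w p τ q.1 q.2))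
    (hmass : ∀ τ > 0, ∀ x, ∫ y, kw V w p τ x y = 1)
    (hs : Sty K C1 Kw V w p) {S : ℝ} (hS : 1 ≤ S) :
    -((N : ℝ) / 2 * Real.log (4 * π) + N * Real.log S +
      (4 * (K + (C1 + 1) * Kw + 2 * (C1 + 1) ^ 2) ^ 2 + 8 * (2 : ℝ) ^ ((N : ℝ) / 2)) / 4) ≤
      ∫ y, rw0 V w p S y * Real.log (rw0 V w p S y) := by
  have hS0 : 0 < S := by linarith
  have hS2 : 0 < S ^ 2 := by positivity
  have i0 := rw_integrable hmass hS0
  obtain ⟨i2, h2⟩ := second hB hm hmass hs hS
  have hg : ∀ y : E N, 0 < hk (S ^ 2) y := Pool.Agent.H29.TF.hk_pos hS2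
  have ig : Integrable (fun y : E N => hk (S ^ 2) y) := Pool.Agent.H29.TF.integrable_hk hS2
  have hlogg : ∀ y : E N, Real.log (hk (S ^ 2) y) =
      -((N : ℝ) / 2 * Real.log (4 * π) + N * Real.log S) - ‖y‖ ^ 2 / (4 * S ^ 2) := by
    intro y
    rw [hk_log hS2, Real.log_mul (by positivity) (by positivity), Real.log_pow]
    push_cast; ring
  have i3 : Integrable (fun y => rw0 V w p S y * Real.log (hk (S ^ 2) y)) := by
    have := (i0.const_mul (-((N : ℝ) / 2 * Real.log (4 * π) + N * Real.log S))).sub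
      (i2.const_mul (1 / (4 * S ^ 2)))
    refine this.congr (Eventually.of_forall fun y => ?_)
    simp only [Pi.sub_apply]
    rw [hlogg]; ring
  have hpt : ∀ y, rw0 V w p S y * Real.log (hk (S ^ 2) y) -
      rw0 V w p S y * Real.log (rw0 V w p S y) ≤ hk (S ^ 2) y - rw0 V w p S y := by
    intro y
    have hr := rw_pos hB hs hS0 y
    have h3 := Real.log_le_sub_one_of_pos (div_pos (hg y) hr)
    rw [Real.log_div (hg y).ne' hr.ne'] at h3
    have h4 := mul_le_mul_of_nonneg_left h3 hr.le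
    have h5 : rw0 V w p S y * (hk (S ^ 2) y / rw0 V w p S y - 1) =
        hk (S ^ 2) y - rw0 V w p S y := by
      field_simp
    rw [h5] at h4
    linarith
  have h6 := integral_mono (i3.sub (rw_log_int hB hm hs hS0)) (ig.sub i0) hpt
  simp only [Pi.sub_apply] at h6
  rw [integral_sub i3 (rw_log_int hB hm hs hS0), integral_sub ig i0,
    Pool.Agent.H29.TF.integral_hk hS2, rw_one hmass hS0, sub_self] at h6
  have h7 : ∫ y, rw0 V w p S y * Real.log (hk (S ^ 2) y) =
      -((N : ℝ) / 2 * Real.log (4 * π) + N * Real.log S) -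
        (1 / (4 * S ^ 2)) * ∫ y, rw0 V w p S y * ‖y‖ ^ 2 := by
    have : ∀ y, rw0 V w p S y * Real.log (hk (S ^ 2) y) =
        (-((N : ℝ) / 2 * Real.log (4 * π) + N * Real.log S)) * rw0 V w p S y -
          (1 / (4 * S ^ 2)) * (rw0 V w p S y * ‖y‖ ^ 2) := by
      intro y; rw [hlogg]; ring
    simp only [this]
    rw [integral_sub (i0.const_mul _) (i2.const_mul _), integral_const_mul, integral_const_mul,
      rw_one hmass hS0, mul_one]
  have h8 : (1 / (4 * S ^ 2)) * ∫ y, rw0 V w p S y * ‖y‖ ^ 2 ≤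
      (4 * (K + (C1 + 1) * Kw + 2 * (C1 + 1) ^ 2) ^ 2 + 8 * (2 : ℝ) ^ ((N : ℝ) / 2)) / 4 := by
    calc _ ≤ (1 / (4 * S ^ 2)) * ((4 * (K + (C1 + 1) * Kw + 2 * (C1 + 1) ^ 2) ^ 2 +
          8 * (2 : ℝ) ^ ((N : ℝ) / 2)) * S ^ 2) :=
          mul_le_mul_of_nonneg_left h2 (by positivity)
      _ = _ := by field_simp
  linarith

/-- (iii) the mean moves slowly -/
theorem mean_step (hB : T_KBD)
    (hm : ∀ τ > 0, Measurable (fun q : E N × E N => kw V w p τ q.1 q.2))
    (hkpos : ∀ τ > 0, ∀ x y, 0 < kw V w p τ x y)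
    (hmass : ∀ τ > 0, ∀ x, ∫ y, kw V w p τ x y = 1)
    (hsg : ∀ τ > 0, ∀ τ' > 0, ∀ x y,
      ∫ z, kw V w p τ x z * kw V w p τ' z y = kw V w p (τ + τ') x y)
    (hs : Sty K C1 Kw V w p) {C S τ : ℝ} (hS : 0 < S) (hτ : 0 < τ)
    (hdr : ∀ x, ‖∫ y, kw V w p τ x y • (y - x)‖ ≤ C * τ) :
    ‖men V w p (S + τ) - men V w p S‖ ≤ C * τ := by
  have hSτ : 0 < S + τ := by linarith
  have hmk := hm τ hτ
  -- measurability of the two-step kernel on the product
  have hmeas : Measurable (fun q : E N × E N => rw0 V w p S q.1 * kw V w p τ q.1 q.2) :=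
    ((rw_meas hm hS).comp measurable_fst).mul hmk
  have hswap : Integrable (fun q : E N × E N =>
      (rw0 V w p S q.1 * kw V w p τ q.1 q.2) • q.2) (volume.prod volume) := by
    have hme : AEStronglyMeasurable (fun q : E N × E N =>
        (rw0 V w p S q.1 * kw V w p τ q.1 q.2) • q.2) (volume.prod volume) :=
      (hmeas.smul measurable_snd).aestronglyMeasurable
    rw [integrable_prod_iff' hme]
    have hn : ∀ y z : E N, ‖(rw0 V w p S z * kw V w p τ z y) • y‖ =
        ‖y‖ * (kw V w p S 0 z * kw V w p τ z y) := by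
      intro y z
      rw [norm_smul, Real.norm_eq_abs, abs_of_nonneg
        (mul_nonneg (rw_pos hB hs hS z).le (hkpos τ hτ z y).le), mul_comm]
      rfl
    constructor
    · refine Eventually.of_forall fun y => ?_
      have h1 : Integrable (fun z => kw V w p S 0 z * kw V w p τ z y) := by
        by_contra h
        have h2 := hsg S hS τ hτ 0 y
        rw [integral_undef h] at h2
        exact (hkpos (S + τ) hSτ 0 y).ne h2
      exact h1.smul_const y
    · have h3 : (fun y => ∫ z, ‖(rw0 V w p S z * kw V w p τ z y) • y‖) =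
          fun y => rw0 V w p (S + τ) y * ‖y‖ := by
        funext y
        simp only [hn]
        rw [integral_const_mul, hsg S hS τ hτ 0 y, mul_comm]
        rfl
      rw [h3]
      exact rw_int hB hm hs hSτ (by fun_prop) (A := 1) fun y => by
        rw [abs_of_nonneg (norm_nonneg y), one_mul]; exact norm_le_exp y
  have h4 : men V w p (S + τ) = ∫ z, ∫ y, (rw0 V w p S z * kw V w p τ z y) • y := by
    rw [integral_integral_swap hswap]
    unfold men
    refine integral_congr_ae (Eventually.of_forall fun y => ?_)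
    simp only
    rw [integral_smul_const]
    congr 1
    exact (hsg S hS τ hτ 0 y).symm
  -- inner integrals
  have hae : ∀ᵐ z : E N, Integrable (fun y => (rw0 V w p S z * kw V w p τ z y) • y) :=
    hswap.prod_right_ae
  have hkone : ∀ z, Integrable (fun y => kw V w p τ z y) := by
    intro z
    by_contra h
    have h2 := hmass τ hτ z
    rw [integral_undef h] at h2
    exact zero_ne_one h2
  have h5 : ∀ᵐ z : E N, (∫ y, (rw0 V w p S z * kw V w p τ z y) • y) =
      rw0 V w p S z • z + rw0 V w p S z • ∫ y, kw V w p τ z y • (y - z) := by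
    filter_upwards [hae] with z hz
    have hr := rw_pos hB hs hS z
    have h6 : Integrable (fun y => kw V w p τ z y • y) := by
      have := hz.smul (rw0 V w p S z)⁻¹
      refine this.congr (Eventually.of_forall fun y => ?_)
      simp only [Pi.smul_apply, smul_smul]
      congr 1
      field_simp
    have h7 : (∫ y, kw V w p τ z y • (y - z)) = (∫ y, kw V w p τ z y • y) - z := by
      simp only [smul_sub]
      rw [integral_sub h6 ((hkone z).smul_const z), integral_smul_const, hmass τ hτ z, one_smul]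
    rw [h7, smul_sub, add_sub_cancel, ← integral_smul]
    refine integral_congr_ae (Eventually.of_forall fun y => ?_)
    simp only [smul_smul]
  have i1 := vec_int hB hm hs hS
  have i2 : Integrable (fun z => rw0 V w p S z • ∫ y, kw V w p τ z y • (y - z)) := by
    have h8 : Integrable (fun z => ∫ y, (rw0 V w p S z * kw V w p τ z y) • y) :=
      hswap.integral_prod_left
    have h9 := h8.sub i1
    refine h9.congr ?_
    filter_upwards [h5] with z hz
    simp only [Pi.sub_apply]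
    rw [hz, add_sub_cancel_left]
  have h6 : men V w p (S + τ) - men V w p S =
      ∫ z, rw0 V w p S z • ∫ y, kw V w p τ z y • (y - z) := by
    rw [h4, integral_congr_ae h5, integral_add i1 i2]
    unfold men
    rw [add_sub_cancel_left]
  rw [h6]
  calc ‖∫ z, rw0 V w p S z • ∫ y, kw V w p τ z y • (y - z)‖
      ≤ ∫ z, ‖rw0 V w p S z • ∫ y, kw V w p τ z y • (y - z)‖ := norm_integral_le_integral_norm _
    _ ≤ ∫ z, rw0 V w p S z * (C * τ) := by
        refine integral_mono i2.norm ((rw_integrable hmass hS).mul_const _) fun z => ?_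
        simp only
        rw [norm_smul, Real.norm_eq_abs, abs_of_pos (rw_pos hB hs hS z)]
        exact mul_le_mul_of_nonneg_left (hdr z) (rw_pos hB hs hS z).le
    _ = C * τ := by rw [integral_mul_const, rw_one hmass hS, one_mul]

theorem shift (S : ℝ) (φ : E N → ℝ) : (∫ y, rw0 V w p S y * φ y) =
    ∫ y, gk V 0 0 (-S) y * p (y + S • w) / p 0 * φ (y + S • w) := by
  rw [← integral_add_right_eq_self (fun y => rw0 V w p S y * φ y) (S • w)]
  refine integral_congr_ae (Eventually.of_forall fun y => ?_)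
  simp only [rw0, kw, add_sub_cancel_right]

theorem pf_PWC (hB : T_KBD) (hA : T_PWA) : T_PWC := by
  intro N K C1 Kw hKw
  by_cases hK : 0 < K
  swap
  · exact ⟨1, le_rfl, fun V w p hs => absurd hs.pt.K0 hK⟩
  by_cases hC1 : 1 ≤ C1
  swap
  · exact ⟨1, le_rfl, fun V w p hs => absurd hs.hC1 hC1⟩
  obtain ⟨C, hC, hP⟩ := hA N K C1 Kw 1 one_pos
  set A1 : ℝ := K + (3 * C1 + Kw) * Mx N K (C1 + 1) Kw 1 with hA1
  set A2 : ℝ := (4 * (K + (C1 + 1) * Kw + 2 * (C1 + 1) ^ 2) ^ 2 +
    8 * (2 : ℝ) ^ ((N : ℝ) / 2)) / 4 with hA2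
  have hMx : 0 < Mx N K (C1 + 1) Kw 1 := by unfold Mx; positivity
  have hA10 : 0 ≤ A1 := by positivity
  have hA20 : 0 ≤ A2 := by positivity
  have hl4 : 0 ≤ Real.log (4 * π) := Real.log_nonneg (by linarith [Real.pi_gt_three])
  have hN0 : (0 : ℝ) ≤ N := Nat.cast_nonneg N
  have hNl : 0 ≤ (N : ℝ) / 2 * Real.log (4 * π) := by positivity
  refine ⟨C + A1 + A2 + N + (N : ℝ) / 2 * Real.log (4 * π), by linarith, ?_⟩
  intro V w p hs
  obtain ⟨hm, hkpos, hmass, hsg, -, -, hdr, -⟩ := hP V w p hs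
  refine ⟨?_, ?_, ?_, ?_⟩
  · intro τ h0 h1
    have h2 := start hB hm hmass hs h0 h1
    have hl : 0 ≤ Real.log (1 / τ) := Real.log_nonneg (by rw [le_div_iff₀ h0]; linarith)
    have h3 : A1 + (N : ℝ) / 2 * Real.log (1 / τ) ≤
        (C + A1 + A2 + N + (N : ℝ) / 2 * Real.log (4 * π)) * (1 + Real.log (1 / τ)) := by
      have e : (C + A1 + A2 + N + (N : ℝ) / 2 * Real.log (4 * π)) * (1 + Real.log (1 / τ)) -
          (A1 + (N : ℝ) / 2 * Real.log (1 / τ)) =
          (C + A2 + N + (N : ℝ) / 2 * Real.log (4 * π)) +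
          (C + A1 + A2 + (N : ℝ) / 2 + (N : ℝ) / 2 * Real.log (4 * π)) * Real.log (1 / τ) := by
        ring
      have : 0 ≤ (C + A2 + N + (N : ℝ) / 2 * Real.log (4 * π)) +
          (C + A1 + A2 + (N : ℝ) / 2 + (N : ℝ) / 2 * Real.log (4 * π)) * Real.log (1 / τ) := by
        positivity
      linarith
    linarith
  · intro S hS
    have hS0 : 0 < S := by linarith
    have h2 := gibbs hB hm hmass hs hS
    have hl : 0 ≤ Real.log S := Real.log_nonneg hS
    rw [Jen_eq hB hm hs hS0]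
    have h3 : (N : ℝ) / 2 * Real.log (4 * π) + N * Real.log S + A2 ≤
        (C + A1 + A2 + N + (N : ℝ) / 2 * Real.log (4 * π)) * (1 + Real.log S) := by
      have e : (C + A1 + A2 + N + (N : ℝ) / 2 * Real.log (4 * π)) * (1 + Real.log S) -
          ((N : ℝ) / 2 * Real.log (4 * π) + N * Real.log S + A2) =
          (C + A1 + N) + (C + A1 + A2 + (N : ℝ) / 2 * Real.log (4 * π)) * Real.log S := by ring
      have : 0 ≤ (C + A1 + N) + (C + A1 + A2 + (N : ℝ) / 2 * Real.log (4 * π)) * Real.log S := by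
        positivity
      linarith
    linarith
  · intro S hS τ h0 h1
    have hCC : C * τ ≤ (C + A1 + A2 + N + (N : ℝ) / 2 * Real.log (4 * π)) * τ :=
      mul_le_mul_of_nonneg_right (by linarith) h0.le
    refine ⟨(mean_step hB hm hkpos hmass hsg hs hS h0 (fun x => hdr τ h0 h1 x)).trans hCC, ?_⟩
    have h2 := hdr τ h0 h1 0
    have h3 : men V w p τ = ∫ y, kw V w p τ 0 y • (y - 0) := by
      unfold men rw0; simp only [sub_zero]
    rw [h3]
    exact h2.trans hCC
  · intro S _ φ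
    exact shift S φ

end Pool.Agent.H34.RF.PWC
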