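import Pool.Agent.H91.RF.TargetsF

/-!
# MP_609556_an, module PWC, part a: pointwise bounds and exponential moments of `rw0`
-/

open MeasureTheory Set Filter Topology Metric Real
open Pool.Agent.H29.TF (hk P)
open Pool.Agent.H91.RD Pool.Agent.H91.RF

namespace Pool.Agent.H34.RF.PWC

variable {N : ℕ}

/-- exponential tilt of the heat kernel -/
theorem hk_exp {t a : ℝ} (ht : 0 < t) (z : E N) :
    hk t z * Real.exp (a * ‖z‖) ≤
      Real.exp (2 * a ^ 2 * t) * (2 : ℝ) ^ ((N : ℝ) / 2) * hk (2 * t) z := by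
  unfold hk
  have hN : Module.finrank ℝ (E N) = N := by simp
  rw [hN]
  have h1 : (4 * π * (2 * t)) ^ (-(N : ℝ) / 2) =
      (2 : ℝ) ^ (-(N : ℝ) / 2) * (4 * π * t) ^ (-(N : ℝ) / 2) := by
    rw [← Real.mul_rpow (by norm_num) (by positivity)]
    congr 1; ring
  have h2 : (2 : ℝ) ^ ((N : ℝ) / 2) * (2 : ℝ) ^ (-(N : ℝ) / 2) = 1 := by
    rw [← Real.rpow_add (by norm_num)]
    have : (N : ℝ) / 2 + -(N : ℝ) / 2 = 0 := by ring
    rw [this, Real.rpow_zero]
  have h3 : -‖z‖ ^ 2 / (4 * t) + a * ‖z‖ ≤ 2 * a ^ 2 * t + -‖z‖ ^ 2 / (4 * (2 * t)) := by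
    have h4 : 0 ≤ (‖z‖ - 4 * a * t) ^ 2 / (8 * t) := by positivity
    have h5 : (‖z‖ - 4 * a * t) ^ 2 / (8 * t) =
        2 * a ^ 2 * t + -‖z‖ ^ 2 / (4 * (2 * t)) - (-‖z‖ ^ 2 / (4 * t) + a * ‖z‖) := by
      field_simp; ring
    linarith
  rw [h1]
  have h6 : 0 ≤ (4 * π * t) ^ (-(N : ℝ) / 2) := by positivity
  calc (4 * π * t) ^ (-(N : ℝ) / 2) * Real.exp (-‖z‖ ^ 2 / (4 * t)) * Real.exp (a * ‖z‖)
      = (4 * π * t) ^ (-(N : ℝ) / 2) * Real.exp (-‖z‖ ^ 2 / (4 * t) + a * ‖z‖) := by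
        rw [Real.exp_add]; ring
    _ ≤ (4 * π * t) ^ (-(N : ℝ) / 2) *
        Real.exp (2 * a ^ 2 * t + -‖z‖ ^ 2 / (4 * (2 * t))) :=
        mul_le_mul_of_nonneg_left (Real.exp_le_exp.2 h3) h6
    _ = Real.exp (2 * a ^ 2 * t) * (2 : ℝ) ^ ((N : ℝ) / 2) * ((2 : ℝ) ^ (-(N : ℝ) / 2) *
        (4 * π * t) ^ (-(N : ℝ) / 2) * Real.exp (-‖z‖ ^ 2 / (4 * (2 * t)))) := by
        rw [Real.exp_add]
        linear_combination (-(4 * π * t) ^ (-(N : ℝ) / 2) * Real.exp (2 * a ^ 2 * t) *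
          Real.exp (-‖z‖ ^ 2 / (4 * (2 * t)))) * h2

/-- as `hk_exp`, centred at `v` -/
theorem hk_exp_sub {t a : ℝ} (ht : 0 < t) (ha : 0 ≤ a) (v y : E N) :
    hk t (v - y) * Real.exp (a * ‖y‖) ≤
      Real.exp (a * ‖v‖ + 2 * a ^ 2 * t) * (2 : ℝ) ^ ((N : ℝ) / 2) * hk (2 * t) (v - y) := by
  have h1 := hk_exp (a := a) ht (v - y)
  have h2 : Real.exp (a * ‖y‖) ≤ Real.exp (a * ‖v‖) * Real.exp (a * ‖v - y‖) := by
    rw [← Real.exp_add, Real.exp_le_exp, ← mul_add]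
    refine mul_le_mul_of_nonneg_left ?_ ha
    have : y = v - (v - y) := by abel
    calc ‖y‖ = ‖v - (v - y)‖ := by rw [← this]
      _ ≤ _ := norm_sub_le _ _
  have h3 : 0 ≤ hk t (v - y) := (Pool.Agent.H29.TF.hk_pos ht _).le
  calc hk t (v - y) * Real.exp (a * ‖y‖)
      ≤ hk t (v - y) * (Real.exp (a * ‖v‖) * Real.exp (a * ‖v - y‖)) :=
        mul_le_mul_of_nonneg_left h2 h3
    _ = Real.exp (a * ‖v‖) * (hk t (v - y) * Real.exp (a * ‖v - y‖)) := by ring
    _ ≤ Real.exp (a * ‖v‖) * (Real.exp (2 * a ^ 2 * t) * (2 : ℝ) ^ ((N : ℝ) / 2) *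
        hk (2 * t) (v - y)) := mul_le_mul_of_nonneg_left h1 (Real.exp_pos _).le
    _ = _ := by rw [Real.exp_add]; ring

theorem hk_log {t : ℝ} (ht : 0 < t) (z : E N) :
    Real.log (hk t z) = -((N : ℝ) / 2 * Real.log (4 * π * t)) - ‖z‖ ^ 2 / (4 * t) := by
  unfold hk
  have hN : Module.finrank ℝ (E N) = N := by simp
  rw [hN, Real.log_mul (by positivity) (by positivity), Real.log_rpow (by positivity),
    Real.log_exp]
  ring

section

variable {K C1 Kw : ℝ} {V : ℝ → E N → ℝ} {w : E N} {p : E N → ℝ}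

theorem p_cont (hs : Sty K C1 Kw V w p) : Continuous p := by
  have hC : 0 ≤ C1 := by linarith [hs.hC1]
  have h1 : LipschitzWith (Real.toNNReal C1) (fun x => Real.log (p x)) := by
    refine LipschitzWith.of_dist_le_mul fun x y => ?_
    rw [Real.dist_eq, Real.coe_toNNReal _ hC, dist_eq_norm]
    have h2 : ∀ x y, Real.log (p x) ≤ C1 * ‖x - y‖ + Real.log (p y) := by
      intro x y
      have := Real.log_le_log (hs.pos x) (hs.har x y)
      rwa [Real.log_mul (Real.exp_pos _).ne' (hs.pos y).ne', Real.log_exp] at this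
    have h3 := h2 x y
    have h4 := h2 y x
    rw [norm_sub_rev] at h4
    rw [abs_le]; constructor <;> linarith
  have h2 : p = fun x => Real.exp (Real.log (p x)) := by
    funext x; rw [Real.exp_log (hs.pos x)]
  rw [h2]
  exact Real.continuous_exp.comp h1.continuous

theorem p_log (hs : Sty K C1 Kw V w p) (y : E N) :
    |Real.log (p y) - Real.log (p 0)| ≤ C1 * ‖y‖ := by
  have h2 : ∀ x y, Real.log (p x) ≤ C1 * ‖x - y‖ + Real.log (p y) := by
    intro x y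
    have := Real.log_le_log (hs.pos x) (hs.har x y)
    rwa [Real.log_mul (Real.exp_pos _).ne' (hs.pos y).ne', Real.log_exp] at this
  have h3 := h2 y 0
  have h4 := h2 0 y
  rw [sub_zero] at h3
  rw [zero_sub, norm_neg] at h4
  rw [abs_le]; constructor <;> linarith

theorem rw_le (hB : T_KBD) (hs : Sty K C1 Kw V w p) {S : ℝ} (hS : 0 < S) (y : E N) :
    rw0 V w p S y ≤ Real.exp (K * S) * (Real.exp (C1 * ‖y‖) * hk S (S • w - y)) := by
  have h1 := (hB N K V hs.pt (-S) 0 (by linarith) 0 (y - S • w)).2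
  rw [zero_sub, zero_sub, neg_neg, neg_sub] at h1
  have h2 := hs.har y 0
  rw [sub_zero] at h2
  have hp0 := hs.pos 0
  have h3 : 0 < hk S (S • w - y) := Pool.Agent.H29.TF.hk_pos hS _
  unfold rw0 kw
  rw [div_le_iff₀ hp0]
  calc gk V 0 0 (-S) (y - S • w) * p y
      ≤ (Real.exp (K * S) * hk S (S • w - y)) * p y :=
        mul_le_mul_of_nonneg_right h1 (hs.pos y).le
    _ ≤ (Real.exp (K * S) * hk S (S • w - y)) * (Real.exp (C1 * ‖y‖) * p 0) :=
        mul_le_mul_of_nonneg_left h2 (by positivity)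
    _ = _ := by ring

theorem rw_ge (hB : T_KBD) (hs : Sty K C1 Kw V w p) {S : ℝ} (hS : 0 < S) (y : E N) :
    Real.exp (-(K * S)) * (Real.exp (-(C1 * ‖y‖)) * hk S (S • w - y)) ≤ rw0 V w p S y := by
  have h1 := (hB N K V hs.pt (-S) 0 (by linarith) 0 (y - S • w)).1
  rw [zero_sub, zero_sub, neg_neg, neg_sub] at h1
  have h2 := hs.har 0 y
  rw [zero_sub, norm_neg] at h2
  have hp0 := hs.pos 0
  have h3 : 0 < hk S (S • w - y) := Pool.Agent.H29.TF.hk_pos hS _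
  have h4 : Real.exp (-(C1 * ‖y‖)) * p 0 ≤ p y := by
    calc Real.exp (-(C1 * ‖y‖)) * p 0 ≤ Real.exp (-(C1 * ‖y‖)) * (Real.exp (C1 * ‖y‖) * p y) :=
          mul_le_mul_of_nonneg_left h2 (Real.exp_pos _).le
      _ = p y := by rw [← mul_assoc, ← Real.exp_add, neg_add_cancel, Real.exp_zero, one_mul]
  unfold rw0 kw
  rw [le_div_iff₀ hp0]
  calc Real.exp (-(K * S)) * (Real.exp (-(C1 * ‖y‖)) * hk S (S • w - y)) * p 0
      = (Real.exp (-(K * S)) * hk S (S • w - y)) * (Real.exp (-(C1 * ‖y‖)) * p 0) := by ring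
    _ ≤ (Real.exp (-(K * S)) * hk S (S • w - y)) * p y :=
        mul_le_mul_of_nonneg_left h4 (by positivity)
    _ ≤ gk V 0 0 (-S) (y - S • w) * p y := mul_le_mul_of_nonneg_right h1 (hs.pos y).le

theorem rw_pos (hB : T_KBD) (hs : Sty K C1 Kw V w p) {S : ℝ} (hS : 0 < S) (y : E N) :
    0 < rw0 V w p S y := by
  refine lt_of_lt_of_le ?_ (rw_ge hB hs hS y)
  have h3 : 0 < hk S (S • w - y) := Pool.Agent.H29.TF.hk_pos hS _
  positivity

/-- measurability of the law -/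
theorem rw_meas (hm : ∀ τ > 0, Measurable (fun q : E N × E N => kw V w p τ q.1 q.2)) {S : ℝ}
    (hS : 0 < S) : Measurable (rw0 V w p S) :=
  (hm S hS).comp (measurable_const.prodMk measurable_id)

/-- the constant of the exponential moments -/
noncomputable def Mx (N : ℕ) (K a b S : ℝ) : ℝ :=
  Real.exp (K * S + (a * (S * b) + 2 * a ^ 2 * S)) * (2 : ℝ) ^ ((N : ℝ) / 2)

theorem rw_dom (hB : T_KBD) (hs : Sty K C1 Kw V w p) {S : ℝ} (hS : 0 < S) {a : ℝ} (ha : 0 ≤ a)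
    (y : E N) : rw0 V w p S y * Real.exp (a * ‖y‖) ≤
      Mx N K (C1 + a) Kw S * hk (2 * S) (S • w - y) := by
  have hC : 0 ≤ C1 := by linarith [hs.hC1]
  have h1 := rw_le hB hs hS y
  have h2 := hk_exp_sub (a := C1 + a) hS (by linarith) (S • w) y
  have h3 : 0 < hk (2 * S) (S • w - y) := Pool.Agent.H29.TF.hk_pos (by linarith) _
  have h4 : ‖S • w‖ ≤ S * Kw := by
    rw [norm_smul, Real.norm_eq_abs, abs_of_pos hS]
    exact mul_le_mul_of_nonneg_left hs.wle hS.le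
  have h5 : Real.exp ((C1 + a) * ‖S • w‖ + 2 * (C1 + a) ^ 2 * S) ≤
      Real.exp ((C1 + a) * (S * Kw) + 2 * (C1 + a) ^ 2 * S) := by
    rw [Real.exp_le_exp]
    have := mul_le_mul_of_nonneg_left h4 (by linarith : 0 ≤ C1 + a)
    linarith
  have h6 : (0 : ℝ) < (2 : ℝ) ^ ((N : ℝ) / 2) := by positivity
  calc rw0 V w p S y * Real.exp (a * ‖y‖)
      ≤ (Real.exp (K * S) * (Real.exp (C1 * ‖y‖) * hk S (S • w - y))) * Real.exp (a * ‖y‖) :=
        mul_le_mul_of_nonneg_right h1 (Real.exp_pos _).le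
    _ = Real.exp (K * S) * (hk S (S • w - y) * Real.exp ((C1 + a) * ‖y‖)) := by
        rw [add_mul, Real.exp_add]; ring
    _ ≤ Real.exp (K * S) * (Real.exp ((C1 + a) * ‖S • w‖ + 2 * (C1 + a) ^ 2 * S) *
        (2 : ℝ) ^ ((N : ℝ) / 2) * hk (2 * S) (S • w - y)) :=
        mul_le_mul_of_nonneg_left h2 (Real.exp_pos _).le
    _ ≤ Real.exp (K * S) * (Real.exp ((C1 + a) * (S * Kw) + 2 * (C1 + a) ^ 2 * S) *
        (2 : ℝ) ^ ((N : ℝ) / 2) * hk (2 * S) (S • w - y)) := by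
        refine mul_le_mul_of_nonneg_left ?_ (Real.exp_pos _).le
        exact mul_le_mul_of_nonneg_right (mul_le_mul_of_nonneg_right h5 h6.le) h3.le
    _ = _ := by unfold Mx; rw [Real.exp_add (K * S)]; ring

theorem rw_exp_int (hB : T_KBD) (hm : ∀ τ > 0, Measurable (fun q : E N × E N => kw V w p τ q.1 q.2))
    (hs : Sty K C1 Kw V w p) {S : ℝ} (hS : 0 < S) {a : ℝ} (ha : 0 ≤ a) :
    Integrable (fun y => rw0 V w p S y * Real.exp (a * ‖y‖)) ∧
      ∫ y, rw0 V w p S y * Real.exp (a * ‖y‖) ≤ Mx N K (C1 + a) Kw S := by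
  have hi : Integrable (fun y => Mx N K (C1 + a) Kw S * hk (2 * S) (S • w - y)) :=
    (Pool.Agent.H29.TF.integrable_hk_sub (by linarith) _).const_mul _
  have hme : AEStronglyMeasurable (fun y => rw0 V w p S y * Real.exp (a * ‖y‖)) volume := by
    have h1 := rw_meas hm hS
    have h2 : Measurable (fun y : E N => Real.exp (a * ‖y‖)) := by fun_prop
    exact (h1.mul h2).aestronglyMeasurable
  have h0 : Integrable (fun y => rw0 V w p S y * Real.exp (a * ‖y‖)) := by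
    refine hi.mono' hme (Eventually.of_forall fun y => ?_)
    rw [Real.norm_eq_abs, abs_of_nonneg (mul_nonneg (rw_pos hB hs hS y).le (Real.exp_pos _).le)]
    exact rw_dom hB hs hS ha y
  refine ⟨h0, ?_⟩
  calc ∫ y, rw0 V w p S y * Real.exp (a * ‖y‖)
      ≤ ∫ y, Mx N K (C1 + a) Kw S * hk (2 * S) (S • w - y) :=
        integral_mono h0 hi fun y => rw_dom hB hs hS ha y
    _ = _ := by
        rw [integral_const_mul, Pool.Agent.H29.TF.integral_hk_sub (by linarith), mul_one]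

/-- integrability of functions of exponential growth against the law -/
theorem rw_int (hB : T_KBD) (hm : ∀ τ > 0, Measurable (fun q : E N × E N => kw V w p τ q.1 q.2))
    (hs : Sty K C1 Kw V w p) {S : ℝ} (hS : 0 < S) {F : E N → ℝ} (hF : Measurable F) {A : ℝ}
    (hA : ∀ y, |F y| ≤ A * Real.exp ‖y‖) : Integrable (fun y => rw0 V w p S y * F y) := by
  have h1 := (rw_exp_int hB hm hs hS (a := 1) zero_le_one).1.const_mul A
  refine h1.mono' ((rw_meas hm hS).mul hF).aestronglyMeasurable (Eventually.of_forall fun y => ?_)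
  rw [Real.norm_eq_abs, abs_mul, abs_of_pos (rw_pos hB hs hS y), one_mul]
  calc rw0 V w p S y * |F y| ≤ rw0 V w p S y * (A * Real.exp ‖y‖) :=
        mul_le_mul_of_nonneg_left (hA y) (rw_pos hB hs hS y).le
    _ = _ := by ring

theorem norm_le_exp (y : E N) : ‖y‖ ≤ Real.exp ‖y‖ := by
  have := Real.add_one_le_exp ‖y‖
  linarith

theorem one_le_exp' (y : E N) : 1 ≤ Real.exp ‖y‖ := Real.one_le_exp (norm_nonneg y)

theorem sq_le_exp (y : E N) : ‖y‖ ^ 2 ≤ 2 * Real.exp ‖y‖ := by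
  have := Real.quadratic_le_exp_of_nonneg (norm_nonneg y)
  nlinarith [norm_nonneg y]

theorem rw_log_bd (hB : T_KBD) (hs : Sty K C1 Kw V w p) {S : ℝ} (hS : 0 < S) (y : E N) :
    |Real.log (rw0 V w p S y)| ≤ K * S + C1 * ‖y‖ + (N : ℝ) / 2 * |Real.log (4 * π * S)| +
      ‖S • w - y‖ ^ 2 / (4 * S) := by
  have h3 : 0 < hk S (S • w - y) := Pool.Agent.H29.TF.hk_pos hS _
  have h1 := Real.log_le_log (rw_pos hB hs hS y) (rw_le hB hs hS y)
  have h2 := Real.log_le_log (by positivity) (rw_ge hB hs hS y)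
  rw [Real.log_mul (by positivity) (by positivity), Real.log_mul (by positivity) (by positivity),
    Real.log_exp, Real.log_exp, hk_log hS] at h1 h2
  have h4 := neg_abs_le (Real.log (4 * π * S))
  have h5 := le_abs_self (Real.log (4 * π * S))
  have hN : 0 ≤ (N : ℝ) / 2 := by positivity
  have h6 := mul_le_mul_of_nonneg_left h4 hN
  have h7 := mul_le_mul_of_nonneg_left h5 hN
  have h8 : 0 ≤ ‖S • w - y‖ ^ 2 / (4 * S) := by positivity
  rw [mul_neg] at h6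
  rw [abs_le]
  constructor <;> linarith

/-- measurability of the logarithm of the law -/
theorem rw_log_int (hB : T_KBD)
    (hm : ∀ τ > 0, Measurable (fun q : E N × E N => kw V w p τ q.1 q.2))
    (hs : Sty K C1 Kw V w p) {S : ℝ} (hS : 0 < S) :
    Integrable (fun y => rw0 V w p S y * Real.log (rw0 V w p S y)) := by
  have hK := hs.pt.K0
  have hC1 : 0 ≤ C1 := by linarith [hs.hC1]
  refine rw_int hB hm hs hS (Real.measurable_log.comp (rw_meas hm hS))
    (A := K * S + C1 + (N : ℝ) / 2 * |Real.log (4 * π * S)| +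
      (‖S • w‖ ^ 2 / (2 * S) + 1 / S)) fun y => ?_
  have h1 := rw_log_bd hB hs hS y
  have h2 : ‖S • w - y‖ ^ 2 / (4 * S) ≤ ‖S • w‖ ^ 2 / (2 * S) + ‖y‖ ^ 2 / (2 * S) := by
    have h3 : ‖S • w - y‖ ^ 2 ≤ 2 * ‖S • w‖ ^ 2 + 2 * ‖y‖ ^ 2 := by
      have := norm_sub_le (S • w) y
      have h0 := norm_nonneg (S • w - y)
      nlinarith [sq_nonneg (‖S • w‖ - ‖y‖)]
    have h4 : ‖S • w‖ ^ 2 / (2 * S) + ‖y‖ ^ 2 / (2 * S) =
        (2 * ‖S • w‖ ^ 2 + 2 * ‖y‖ ^ 2) / (4 * S) := by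
      field_simp; ring
    rw [h4]
    exact div_le_div_of_nonneg_right h3 (by positivity)
  have h5 : ‖y‖ ^ 2 / (2 * S) ≤ 1 / S * Real.exp ‖y‖ := by
    have := sq_le_exp y
    rw [div_mul_eq_mul_div, one_mul, div_le_div_iff₀ (by positivity) hS]
    nlinarith
  have h6 := norm_le_exp y
  have h7 := one_le_exp' y
  have e1 : K * S ≤ K * S * Real.exp ‖y‖ := le_mul_of_one_le_right (by positivity) h7
  have e2 : C1 * ‖y‖ ≤ C1 * Real.exp ‖y‖ := mul_le_mul_of_nonneg_left h6 hC1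
  have e3 : (N : ℝ) / 2 * |Real.log (4 * π * S)| ≤
      (N : ℝ) / 2 * |Real.log (4 * π * S)| * Real.exp ‖y‖ :=
    le_mul_of_one_le_right (by positivity) h7
  have e4 : ‖S • w‖ ^ 2 / (2 * S) ≤ ‖S • w‖ ^ 2 / (2 * S) * Real.exp ‖y‖ :=
    le_mul_of_one_le_right (by positivity) h7
  nlinarith

theorem rw_one (hmass : ∀ τ > 0, ∀ x, ∫ y, kw V w p τ x y = 1) {S : ℝ} (hS : 0 < S) :
    ∫ y, rw0 V w p S y = 1 := hmass S hS 0

theorem rw_integrable (hmass : ∀ τ > 0, ∀ x, ∫ y, kw V w p τ x y = 1) {S : ℝ} (hS : 0 < S) :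
    Integrable (rw0 V w p S) := by
  by_contra h
  have h1 := rw_one hmass hS
  rw [integral_undef h] at h1
  exact zero_ne_one h1

end

end Pool.Agent.H34.RF.PWC
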